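import Mathlib
import Pool.Agent.W332.Kd.Thr

set_option autoImplicit false

/-!
# Factors of Cayley graphs of abelian groups (MP_257582_lc)
-/

namespace Pool.Agent.R54.EV

open Finset
open Pool.Agent.W332.Kd (cay Sy VT Reg cay_adj cay_nbr cay_Reg cay_mono)

/-- a spanning `k`-regular subgraph -/
def HasFactor {V : Type} (k : ℕ) (G : SimpleGraph V) : Prop := ∃ H ≤ G, Reg H k

/-- every connected component has an even number of vertices -/
def EvenComps {V : Type} (G : SimpleGraph V) : Prop :=
  ∀ C : G.ConnectedComponent, Even C.supp.ncard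

section Grp

variable {A : Type} [AddCommGroup A]

theorem sy_even_of_no_fix {T : Finset A} (hT : Sy T) (h : ∀ a ∈ T, -a ≠ a) : Even T.card := by
  classical
  have h1 : ∑ x ∈ T, (1 : ZMod 2) = 0 := by
    refine Finset.sum_involution (fun a _ => -a) ?_ ?_ ?_ ?_
    · intro a _
      decide
    · intro a ha _
      exact h a ha
    · intro a ha
      exact hT.neg a ha
    · intro a _
      exact neg_neg a
  rw [Finset.sum_const, nsmul_eq_mul, mul_one] at h1
  exact (ZMod.natCast_eq_zero_iff_even).1 h1

theorem sy_erase_pair [DecidableEq A] {T : Finset A} (hT : Sy T) (a : A) :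
    Sy ((T.erase a).erase (-a)) := by
  constructor
  · intro h
    exact hT.zero (Finset.mem_of_mem_erase (Finset.mem_of_mem_erase h))
  · intro x hx
    rw [mem_erase, mem_erase] at hx ⊢
    refine ⟨fun h => hx.2.1 (neg_injective h), fun h => hx.1 ?_, hT.neg x hx.2.2⟩
    rw [← h, neg_neg]

/-- a symmetric set contains symmetric subsets of all even sizes -/
theorem symm_subset [DecidableEq A] (j : ℕ) : ∀ (m : ℕ) (T : Finset A), T.card = m → Sy T →
    2 * j ≤ T.card → ∃ T' ⊆ T, Sy T' ∧ T'.card = 2 * j := by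
  intro m
  induction m using Nat.strong_induction_on with
  | _ m ih =>
    intro T hm hT hj
    rcases hj.eq_or_lt with h | h
    · exact ⟨T, Subset.rfl, hT, h.symm⟩
    by_cases hfix : ∃ a ∈ T, -a = a
    · obtain ⟨a, ha, haa⟩ := hfix
      have h1 : Sy ((T.erase a).erase (-a)) := sy_erase_pair hT a
      have h2 : (T.erase a).erase (-a) = T.erase a := by
        rw [haa, Finset.erase_idem]
      rw [h2] at h1
      have h3 : (T.erase a).card = T.card - 1 := Finset.card_erase_of_mem ha
      obtain ⟨T', h4, h5, h6⟩ := ih (T.erase a).card (by omega) _ rfl h1 (by omega)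
      exact ⟨T', h4.trans (Finset.erase_subset _ _), h5, h6⟩
    · push Not at hfix
      have hev := sy_even_of_no_fix hT hfix
      obtain ⟨r, hr⟩ := hev
      have hne : T.Nonempty := Finset.card_pos.1 (by omega)
      obtain ⟨a, ha⟩ := hne
      have h1 : Sy ((T.erase a).erase (-a)) := sy_erase_pair hT a
      have h2 : -a ∈ T.erase a := Finset.mem_erase.2 ⟨hfix a ha, hT.neg a ha⟩
      have h3 : ((T.erase a).erase (-a)).card = T.card - 2 := by
        rw [Finset.card_erase_of_mem h2, Finset.card_erase_of_mem ha]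
        omega
      obtain ⟨T', h4, h5, h6⟩ := ih ((T.erase a).erase (-a)).card (by omega) _ rfl h1 (by omega)
      exact ⟨T', h4.trans ((Finset.erase_subset _ _).trans (Finset.erase_subset _ _)), h5, h6⟩

/-- parity along an element of even order -/
theorem exists_parity [Finite A] (s : A) (hs : Even (addOrderOf s)) :
    ∃ p : A → ZMod 2, ∀ x, p (x + s) = p x + 1 := by
  classical
  have hex : ∀ x : A, ∃ i : ℤ,
      i • s = x - (QuotientAddGroup.mk (s := AddSubgroup.zmultiples s) x).out := by
    intro x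
    have h := QuotientAddGroup.mk_out_eq_add (AddSubgroup.zmultiples s) x
    obtain ⟨⟨h1, h2⟩, h3⟩ := h
    rw [AddSubgroup.mem_zmultiples_iff] at h2
    obtain ⟨i, hi⟩ := h2
    refine ⟨-i, ?_⟩
    rw [h3, neg_zsmul, hi]
    abel
  choose i hi using hex
  refine ⟨fun x => (i x : ZMod 2), fun x => ?_⟩
  have h1 : (QuotientAddGroup.mk (s := AddSubgroup.zmultiples s) (x + s)) =
      QuotientAddGroup.mk (s := AddSubgroup.zmultiples s) x := by
    rw [QuotientAddGroup.eq]
    rw [AddSubgroup.mem_zmultiples_iff]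
    exact ⟨-1, by rw [neg_zsmul, one_zsmul]; abel⟩
  have h2 : (i (x + s) - (i x + 1)) • s = 0 := by
    rw [sub_zsmul, add_zsmul, one_zsmul, hi, hi, h1]
    abel
  have h3 : ((addOrderOf s : ℕ) : ℤ) ∣ i (x + s) - (i x + 1) := by
    rw [addOrderOf_dvd_iff_zsmul_eq_zero]
    exact h2
  have h4 : (2 : ℤ) ∣ i (x + s) - (i x + 1) := by
    refine dvd_trans ?_ h3
    obtain ⟨r, hr⟩ := hs
    exact ⟨r, by rw [hr]; push_cast; ring⟩
  have h5 : ((i (x + s) - (i x + 1) : ℤ) : ZMod 2) = 0 := by
    exact (ZMod.intCast_zmod_eq_zero_iff_dvd _ 2).2 (by exact_mod_cast h4)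
  push_cast at h5
  exact sub_eq_zero.1 h5

/-- the perfect matching of alternate edges on the cycles of `s` -/
def mat (s : A) (p : A → ZMod 2) (hs : s ≠ 0) : SimpleGraph A where
  Adj x y := (y = x + s ∧ p x = 0) ∨ (x = y + s ∧ p y = 0)
  symm := ⟨fun _ _ h => h.symm⟩
  loopless := ⟨fun x h => by
    rcases h with h | h <;> exact hs (by simpa using h.1)⟩

theorem zmod2_cases (z : ZMod 2) : z = 0 ∨ z = 1 := by
  revert z
  decide

theorem mat_nbr (s : A) (p : A → ZMod 2) (hs : s ≠ 0) (hp : ∀ x, p (x + s) = p x + 1) (x : A) :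
    (mat s p hs).neighborSet x = {if p x = 0 then x + s else x - s} := by
  ext y
  rw [SimpleGraph.mem_neighborSet, Set.mem_singleton_iff]
  change ((y = x + s ∧ p x = 0) ∨ (x = y + s ∧ p y = 0)) ↔ _
  constructor
  · rintro (⟨h1, h2⟩ | ⟨h1, h2⟩)
    · rw [if_pos h2, h1]
    · have h3 : p x = 1 := by
        rw [h1, hp, h2]
        decide
      have h4 : p x ≠ 0 := by
        rw [h3]
        decide
      rw [if_neg h4, h1]
      abel
  · intro h
    by_cases h0 : p x = 0
    · rw [if_pos h0] at h
      exact Or.inl ⟨h, h0⟩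
    · rw [if_neg h0] at h
      right
      have h1 : x = y + s := by
        rw [h]
        abel
      refine ⟨h1, ?_⟩
      have h3 := hp y
      rw [← h1] at h3
      rcases zmod2_cases (p y) with h4 | h4
      · exact h4
      · exfalso
        rw [h4] at h3
        apply h0
        rw [h3]
        decide

theorem mat_Reg (s : A) (p : A → ZMod 2) (hs : s ≠ 0) (hp : ∀ x, p (x + s) = p x + 1) :
    Reg (mat s p hs) 1 := by
  intro x
  rw [mat_nbr s p hs hp, Set.ncard_singleton]

theorem mat_diff (s : A) (p : A → ZMod 2) (hs : s ≠ 0) {x y : A} (h : (mat s p hs).Adj x y) :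
    y - x = s ∨ y - x = -s := by
  rcases h with h | h
  · left
    rw [h.1]
    abel
  · right
    rw [h.1]
    abel

theorem hasFactor_one [Finite A] {S : Finset A} (hS : Sy S)
    (h : ∃ s ∈ S, Even (addOrderOf s)) : HasFactor 1 (cay S) := by
  obtain ⟨s, hsS, hev⟩ := h
  obtain ⟨p, hp⟩ := exists_parity s hev
  have hs0 : s ≠ 0 := by
    rintro rfl
    exact hS.zero hsS
  refine ⟨mat s p hs0, ?_, mat_Reg s p hs0 hp⟩
  intro x y hxy
  rw [cay_adj hS]
  rcases mat_diff s p hs0 hxy with h | h
  · rw [h]
    exact hsS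
  · rw [h]
    exact hS.neg _ hsS

theorem Reg_sup {V : Type} [Finite V] {G H : SimpleGraph V} {a b : ℕ} (hG : Reg G a)
    (hH : Reg H b) (hd : ∀ x y, G.Adj x y → ¬ H.Adj x y) : Reg (G ⊔ H) (a + b) := by
  intro v
  have h1 : (G ⊔ H).neighborSet v = G.neighborSet v ∪ H.neighborSet v := by
    ext x
    simp [SimpleGraph.mem_neighborSet]
  rw [h1, Set.ncard_union_eq ?_ (Set.toFinite _) (Set.toFinite _), hG v, hH v]
  rw [Set.disjoint_left]
  intro x hx hx'
  exact hd v x hx hx'

theorem hasFactor_cay [Finite A] {S : Finset A} (hS : Sy S) {k : ℕ} (hk : k ≤ S.card)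
    (h : Even k ∨ ∃ s ∈ S, Even (addOrderOf s)) : HasFactor k (cay S) := by
  classical
  rcases Nat.even_or_odd k with he | ho
  · obtain ⟨j, hj⟩ := he
    obtain ⟨T, h1, h2, h3⟩ := symm_subset j S.card S rfl hS (by omega)
    refine ⟨cay T, cay_mono h1, ?_⟩
    have := cay_Reg h2
    rwa [h3, show 2 * j = k by omega] at this
  · rcases hk.eq_or_lt with hk | hk
    · exact ⟨cay S, le_rfl, by rw [hk]; exact cay_Reg hS⟩
    · have h := h.resolve_left (Nat.not_even_iff_odd.2 ho)
      obtain ⟨s, hsS, hev⟩ := h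
      obtain ⟨p, hp⟩ := exists_parity s hev
      have hs0 : s ≠ 0 := by
        rintro rfl
        exact hS.zero hsS
      obtain ⟨j, hj⟩ := ho
      have hc : S.card ≤ ((S.erase s).erase (-s)).card + 2 := by
        have h1 := Finset.pred_card_le_card_erase (s := S) (a := s)
        have h2 := Finset.pred_card_le_card_erase (s := S.erase s) (a := -s)
        omega
      obtain ⟨T, h1, h2, h3⟩ := symm_subset j _ _ rfl (sy_erase_pair hS s) (by omega)
      have hsT : s ∉ T := fun h => by
        have := h1 h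
        simp at this
      have hsT' : -s ∉ T := fun h => by
        have := h1 h
        simp at this
      refine ⟨cay T ⊔ mat s p hs0, ?_, ?_⟩
      · refine sup_le (cay_mono (h1.trans ((Finset.erase_subset _ _).trans
          (Finset.erase_subset _ _)))) ?_
        intro x y hxy
        rw [cay_adj hS]
        rcases mat_diff s p hs0 hxy with h | h
        · rw [h]
          exact hsS
        · rw [h]
          exact hS.neg _ hsS
      · have h4 : Reg (cay T) (2 * j) := by
          have := cay_Reg h2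
          rwa [h3] at this
        rw [hj]
        refine Reg_sup h4 (mat_Reg s p hs0 hp) ?_
        intro x y hxy hxy'
        rw [cay_adj h2] at hxy
        rcases mat_diff s p hs0 hxy' with h | h
        · exact hsT (h ▸ hxy)
        · exact hsT' (h ▸ hxy)

/-- the elements of odd order -/
def oddSub (A : Type) [AddCommGroup A] [Finite A] : AddSubgroup A where
  carrier := {x | Odd (addOrderOf x)}
  zero_mem' := by simp
  add_mem' := by
    intro x y hx hy
    have h := (AddCommute.all x y).addOrderOf_add_dvd_lcm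
    have h2 : Odd (Nat.lcm (addOrderOf x) (addOrderOf y)) := by
      have h3 : Nat.lcm (addOrderOf x) (addOrderOf y) ∣ addOrderOf x * addOrderOf y :=
        Nat.lcm_dvd_mul _ _
      exact Odd.of_dvd_nat (Odd.mul hx hy) h3
    exact Odd.of_dvd_nat h2 h
  neg_mem' := by
    intro x hx
    change Odd (addOrderOf (-x))
    rw [addOrderOf_neg]
    exact hx

theorem mem_oddSub [Finite A] (x : A) : x ∈ oddSub A ↔ Odd (addOrderOf x) := Iff.rfl

theorem card_oddSub [Finite A] : Odd (Nat.card (oddSub A)) := by
  rw [← Nat.not_even_iff_odd]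
  intro h
  have : Fact (Nat.Prime 2) := ⟨Nat.prime_two⟩
  obtain ⟨x, hx⟩ := exists_prime_addOrderOf_dvd_card' (G := oddSub A) 2 h.two_dvd
  have h1 : Odd (addOrderOf (x : A)) := x.2
  rw [AddSubgroup.addOrderOf_coe, hx] at h1
  exact absurd h1 (by decide)

end Grp

end Pool.Agent.R54.EV
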