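import Mathlib
import Pool.Agent.W332.Kd.Wr
import Pool.Agent.R54.EV.Fac

set_option autoImplicit false

/-!
# The alternating sum for factors (MP_257582_lc)
-/

namespace Pool.Agent.R54.EV

open Finset Polynomial
open Pool.Agent.W332.Kd
open Pool.Agent.H119R2.Kp

open Classical in
/-- Relation for a group which is generated by translations as required. -/
theorem regC {n : ℕ} {P : SimpleGraph (Fin n) → Prop} (hn : 2 ≤ n)
    (hP : GP n (n.choose 2 - 1) P) {A : Type} [AddCommGroup A] [Fintype A]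
    [DecidableEq A] (hA : Fintype.card A = n) (p : ℕ) [Fact p.Prime] {ι : Type} [Fintype ι]
    (a : ι → A) (c : A) (hpa : ∀ i, p • a i = 0)
    (hgen : ∀ x : A, trl x ∈ Subgroup.closure (insert (trl c) (Set.range fun i => trl (a i)))) :
    ∑ I : Finset (Rp A), (-1 : ℤ) ^ I.card *
      (if PV P A (cay (I.biUnion fun j => pr j.1)) then 1 else 0) = 0 := by
  refine relC hn hP hA p (fun i => trl (a i)) (trl c) ?_ ?_ ?_ (fun j : Rp A => pr j.1) part_pr
    ?_ ?_ ?_
  · intro i j
    rw [← trl_add, ← trl_add, add_comm]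
  · intro i
    rw [← trl_nsmul, hpa, trl_zero]
  · intro i
    have : (trl c)⁻¹ * trl (a i) * trl c = trl (a i) := by
      rw [mul_assoc, ← trl_add, add_comm, trl_add, inv_mul_cancel_left]
    rw [this]
    exact Subgroup.subset_closure ⟨i, rfl⟩
  · intro j i u v h
    change (v + a i) - (u + a i) ∈ _
    rwa [add_sub_add_right_eq_sub]
  · intro j u v h
    change (v + c) - (u + c) ∈ _
    rwa [add_sub_add_right_eq_sub]
  · intro j u v u' v' h h'
    rw [mem_pr] at h h'
    have hcase : v' - u' = v - u ∨ v' - u' = -(v - u) := by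
      rcases h with h | h <;> rcases h' with h' | h' <;> rw [h, h']
      · exact Or.inl rfl
      · exact Or.inr rfl
      · exact Or.inr (neg_neg _).symm
      · exact Or.inl rfl
    rcases hcase with h1 | h1
    · refine ⟨trl (u' - u), hgen _, Or.inl ⟨?_, ?_⟩⟩
      · change u + (u' - u) = u'
        abel
      · change v + (u' - u) = v'
        have : v' = (v' - u') + u' := by abel
        rw [this, h1]
        abel
    · refine ⟨trl (v' - u), hgen _, Or.inr ⟨?_, ?_⟩⟩
      · change u + (v' - u) = v'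
        abel
      · change v + (v' - u) = u'
        have : v' = (v' - u') + u' := by abel
        rw [this, h1]
        abel

/-- the alternating sum over the subsets of an `N`-set with at least `k / 2` elements -/
def W (N k : ℕ) : ℤ := ∑ m ∈ range (N + 1), N.choose m • ((-1 : ℤ) ^ m * if k ≤ 2 * m then 1 else 0)

theorem W_zero {k : ℕ} (hk : 1 ≤ k) : W 0 k = 0 := by
  unfold W
  rw [Finset.sum_range_one]
  rw [if_neg (by omega)]
  simp

theorem W_succ (N k i : ℕ) (hk : k = 2 * i + 1 ∨ k = 2 * i + 2) :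
    W (N + 1) k = -((-1) ^ i * (N.choose i : ℤ)) := by
  have h1 : ∀ m, (k ≤ 2 * m) ↔ ¬ (m ∈ range (i + 1)) := by
    intro m
    rw [mem_range]
    omega
  unfold W
  have h2 : ∀ m ∈ range (N + 1 + 1), (N + 1).choose m • ((-1 : ℤ) ^ m * if k ≤ 2 * m then 1 else 0) =
      (-1 : ℤ) ^ m * ((N + 1).choose m : ℤ) -
        (if m ∈ range (i + 1) then (-1 : ℤ) ^ m * ((N + 1).choose m : ℤ) else 0) := by
    intro m _
    by_cases h : m ∈ range (i + 1)
    · rw [if_pos h, if_neg (fun h' => (h1 m).1 h' h)]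
      simp
    · rw [if_neg h, if_pos ((h1 m).2 h)]
      simp [mul_comm]
  rw [Finset.sum_congr rfl h2, Finset.sum_sub_distrib,
    Int.alternating_sum_range_choose_of_ne (Nat.succ_ne_zero N), zero_sub, neg_inj,
    ← Finset.sum_filter, ← Int.alternating_sum_range_choose_eq_choose]
  refine Finset.sum_subset (fun m hm => (mem_filter.1 hm).2) ?_
  intro m hm hm'
  have h3 : N + 1 < m := by
    by_contra h3
    exact hm' (mem_filter.2 ⟨mem_range.2 (by omega), hm⟩)
  rw [Nat.choose_eq_zero_of_lt h3]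
  simp

theorem cf_sign (k i : ℕ) : cf k i = (-1) ^ i * (k.choose i : ℤ) := by
  rcases Nat.lt_or_ge k i with h | h
  · rw [cf_eq_zero h, Nat.choose_eq_zero_of_lt h]
    simp
  · rw [cf_eq, ← mul_assoc, ← pow_add]
    congr 1
    rw [show k + (k - i) = 2 * (k - i) + i by omega, pow_add, pow_mul]
    simp

section Ev

variable {A : Type} [AddCommGroup A] [Fintype A] [DecidableEq A]

/-- the pairs of elements of odd order -/
noncomputable def Od (A : Type) [AddCommGroup A] [Fintype A] [DecidableEq A] : Finset (Rp A) :=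
  univ.filter fun j => Odd (addOrderOf j.1)

theorem mem_Od (j : Rp A) : j ∈ Od A ↔ Odd (addOrderOf j.1) := by
  simp [Od]

omit [Fintype A] [DecidableEq A] in
theorem odd_ne_neg {a : A} (ha : a ≠ 0) (ho : Odd (addOrderOf a)) : -a ≠ a := by
  intro h
  have h1 : (2 : ℕ) • a = 0 := by
    rw [two_nsmul]
    nth_rewrite 1 [← h]
    exact neg_add_cancel a
  have h2 : addOrderOf a ∣ 2 := addOrderOf_dvd_of_nsmul_eq_zero h1
  rcases (Nat.dvd_prime Nat.prime_two).1 h2 with h3 | h3
  · exact ha (AddMonoid.addOrderOf_eq_one_iff.1 h3)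
  · rw [h3] at ho
    exact absurd ho (by decide)

theorem card_pr_Od {j : Rp A} (hj : j ∈ Od A) : (pr j.1).card = 2 := by
  rw [card_pr, if_neg (odd_ne_neg ((mem_Rp _).1 j.2).1 ((mem_Od j).1 hj))]

theorem Od_le : ∃ k, 2 * k + inv A + 1 = Fintype.card A ∧ (Od A).card ≤ k := by
  obtain ⟨k, h1, h2, _⟩ := Rp_count (A := A)
  refine ⟨k, h1, ?_⟩
  rw [← h2]
  refine Finset.card_le_card fun j hj => ?_
  rw [mem_filter]
  exact ⟨mem_univ _, odd_ne_neg ((mem_Rp _).1 j.2).1 ((mem_Od j).1 hj)⟩

theorem Od_card : 2 * (Od A).card + 1 = Nat.card (oddSub A) := by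
  have h1 : ((Od A).biUnion fun j => pr j.1).card = 2 * (Od A).card := by
    rw [Finset.card_biUnion (fun i _ j _ hij => part_pr.disj i j hij),
      Finset.sum_congr rfl fun j hj => card_pr_Od hj, Finset.sum_const, smul_eq_mul, mul_comm]
  have h2 : insert (0 : A) ((Od A).biUnion fun j => pr j.1) =
      univ.filter fun x : A => Odd (addOrderOf x) := by
    ext x
    rw [mem_insert, mem_biUnion, mem_filter]
    constructor
    · rintro (rfl | ⟨j, hj, hx⟩)
      · simp
      · refine ⟨mem_univ _, ?_⟩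
        rw [mem_Od] at hj
        rw [mem_pr] at hx
        rcases hx with rfl | rfl
        · exact hj
        · rwa [addOrderOf_neg]
    · rintro ⟨-, hx⟩
      by_cases h0 : x = 0
      · exact Or.inl h0
      · right
        obtain ⟨j, hj⟩ := cover_pr x h0
        refine ⟨j, ?_, hj⟩
        rw [mem_Od]
        rw [mem_pr] at hj
        rcases hj with rfl | h
        · exact hx
        · rw [h, addOrderOf_neg] at hx
          exact hx
  have h3 : (0 : A) ∉ (Od A).biUnion fun j => pr j.1 := by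
    rw [mem_biUnion]
    rintro ⟨j, _, hj⟩
    exact (part_pr.sy j).zero hj
  have h4 := congrArg Finset.card h2
  rw [Finset.card_insert_of_notMem h3, h1] at h4
  rw [h4]
  exact (Nat.subtype_card _ (fun x => by rw [mem_filter, mem_oddSub]; simp)).symm

open Classical in
/-- The evaluation of the relation. -/
theorem eval {k : ℕ} (hA : 2 ≤ Fintype.card A) (Q : Finset A → Prop)
    (hmem : ∀ S : Finset A, Sy S → (Q S ↔ k ≤ S.card ∧ ∃ s ∈ S, Even (addOrderOf s)))
    (hsum : ∑ I : Finset (Rp A), (-1 : ℤ) ^ I.card *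
      (if Q (I.biUnion fun j => pr j.1) then 1 else 0) = 0)
    (hk : 1 ≤ k) (G : ℤ[X]) (hG : ∏ j : Rp A, (1 - (X : ℤ[X]) ^ (pr j.1).card) = (1 - X) * G) :
    G.coeff (k - 1) = - W (Od A).card k := by
  have hcard : ∀ I : Finset (Rp A), (I.biUnion fun j => pr j.1).card = ∑ j ∈ I, (pr j.1).card := by
    intro I
    rw [Finset.card_biUnion]
    intro i _ j _ hij
    exact part_pr.disj i j hij
  have h0 : Nonempty (Rp A) := by
    have : Nontrivial A := by
      rw [← Fintype.one_lt_card_iff_nontrivial]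
      omega
    obtain ⟨x, hx⟩ := exists_ne (0 : A)
    obtain ⟨j, _⟩ := cover_pr x hx
    exact ⟨j⟩
  have htot : ∑ I : Finset (Rp A), (-1 : ℤ) ^ I.card = 0 := by
    have := Finset.sum_powerset_neg_one_pow_card (x := (univ : Finset (Rp A)))
    rw [if_neg (Finset.univ_nonempty.ne_empty), Finset.powerset_univ] at this
    exact this
  have hev : ∀ I : Finset (Rp A), (∃ s ∈ I.biUnion fun j => pr j.1, Even (addOrderOf s)) ↔
      ¬ I ⊆ Od A := by
    intro I
    constructor
    · rintro ⟨s, hs, he⟩ hI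
      rw [mem_biUnion] at hs
      obtain ⟨j, hj, hjs⟩ := hs
      have h1 := (mem_Od j).1 (hI hj)
      rw [mem_pr] at hjs
      rcases hjs with rfl | rfl
      · exact (Nat.not_even_iff_odd.2 h1) he
      · rw [addOrderOf_neg] at he
        exact (Nat.not_even_iff_odd.2 h1) he
    · intro hI
      rw [Finset.not_subset] at hI
      obtain ⟨j, hj, hj'⟩ := hI
      rw [mem_Od, Nat.not_odd_iff_even] at hj'
      exact ⟨j.1, mem_biUnion.2 ⟨j, hj, (mem_pr _ _).2 (Or.inl rfl)⟩, hj'⟩
  -- the sum of the small sets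
  have hs1 : ∑ I : Finset (Rp A), (-1 : ℤ) ^ I.card *
      (if ∑ j ∈ I, (pr j.1).card < k then 1 else 0) = G.coeff (k - 1) := by
    rw [subset_sum, show range k = range (k - 1 + 1) by rw [Nat.sub_add_cancel hk]]
    exact sum_range_coeff _ G hG (k - 1)
  -- the sum of the sets of odd order
  have hs2 : ∑ I : Finset (Rp A), (-1 : ℤ) ^ I.card *
      (if I ⊆ Od A ∧ k ≤ ∑ j ∈ I, (pr j.1).card then 1 else 0) = W (Od A).card k := by
    unfold W
    rw [← Finset.sum_powerset_apply_card (fun m => (-1 : ℤ) ^ m * if k ≤ 2 * m then 1 else 0)]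
    symm
    rw [← Finset.sum_subset (Finset.subset_univ (Od A).powerset)]
    · refine Finset.sum_congr rfl fun I hI => ?_
      rw [mem_powerset] at hI
      have h1 : ∑ j ∈ I, (pr j.1).card = 2 * I.card := by
        rw [Finset.sum_congr rfl fun j hj => card_pr_Od (hI hj), Finset.sum_const, smul_eq_mul,
          mul_comm]
      rw [h1]
      simp [hI]
    · intro I _ hI
      rw [mem_powerset] at hI
      simp [hI]
  have hs3 : ∀ I : Finset (Rp A), (-1 : ℤ) ^ I.card *
      (if Q (I.biUnion fun j => pr j.1) then 1 else 0) =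
      (-1 : ℤ) ^ I.card - (-1 : ℤ) ^ I.card * (if ∑ j ∈ I, (pr j.1).card < k then 1 else 0)
        - (-1 : ℤ) ^ I.card *
          (if I ⊆ Od A ∧ k ≤ ∑ j ∈ I, (pr j.1).card then 1 else 0) := by
    intro I
    have h2 := hmem _ (part_pr.sy_biUnion I)
    rw [hcard, hev] at h2
    by_cases h : k ≤ ∑ j ∈ I, (pr j.1).card
    · by_cases h' : I ⊆ Od A
      · rw [if_neg (fun h3 => (h2.1 h3).2 h'), if_neg (not_lt.2 h), if_pos ⟨h', h⟩]
        ring
      · rw [if_pos (h2.2 ⟨h, h'⟩), if_neg (not_lt.2 h), if_neg (fun h3 => h' h3.1)]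
        ring
    · rw [if_neg (fun h3 => h (h2.1 h3).1), if_pos (not_le.1 h), if_neg (fun h3 => h h3.2)]
      ring
  rw [Finset.sum_congr rfl fun I _ => hs3 I, Finset.sum_sub_distrib, Finset.sum_sub_distrib,
    htot, hs1, hs2] at hsum
  linarith

end Ev

end Pool.Agent.R54.EV
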