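import Mathlib
import Pool.Agent.R54.EV.Sum

set_option autoImplicit false

/-!
# No decision tree for factors (MP_257582_lc)
-/

namespace Pool.Agent.R54.EV

open Finset Polynomial
open Pool.Agent.W332.Kd
open Pool.Agent.H119R2.Kp

/-- membership of the Cayley graphs of the abelian groups of order `n` -/
def Mem {n : ℕ} (P : SimpleGraph (Fin n) → Prop) (k : ℕ) : Prop :=
  ∀ (A : Type) [AddCommGroup A] [Fintype A], Fintype.card A = n →
      ∀ S : Finset A, Sy S → (PV P A (cay S) ↔ k ≤ S.card ∧ ∃ s ∈ S, Even (addOrderOf s))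

section

variable {n : ℕ} {P : SimpleGraph (Fin n) → Prop}

/-- `k ≥ n / 2` -/
theorem case_large (hn : 2 ≤ n) (he : Even n) (hP : GP n (n.choose 2 - 1) P) {k : ℕ}
    (hk1 : 1 ≤ k) (hkn : k < n) (hmem : Mem P k) (hk : n ≤ 2 * k) : False := by
  refine no_GP hn hP (k - 1) (by omega) ?_
  intro A _ _ hA S hS
  rw [hmem A hA S hS, Nat.sub_add_cancel hk1]
  constructor
  · exact fun h => h.1
  · intro h
    refine ⟨h, ?_⟩
    by_contra hcon
    push Not at hcon
    classical
    have h1 : ∀ x ∈ insert (0 : A) S, x ∈ oddSub A := by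
      intro x hx
      rw [mem_insert] at hx
      rcases hx with rfl | hx
      · exact (oddSub A).zero_mem
      · exact Nat.not_even_iff_odd.1 (hcon x hx)
    have h2 : (insert (0 : A) S).card ≤ Nat.card (oddSub A) := by
      have h3 : ((insert (0 : A) S : Finset A) : Set A) ⊆ (oddSub A : Set A) := fun x hx => h1 x hx
      have h4 := Set.ncard_le_ncard h3 (Set.toFinite _)
      rw [Set.ncard_coe_finset] at h4
      exact h4
    rw [Finset.card_insert_of_notMem hS.zero] at h2
    have h5 : Nat.card (oddSub A) ∣ n := by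
      rw [← hA, ← Nat.card_eq_fintype_card]
      exact AddSubgroup.card_addSubgroup_dvd_card _
    obtain ⟨c, hc⟩ := h5
    have h6 := card_oddSub (A := A)
    have h7 : Even c := by
      rw [hc, Nat.even_mul] at he
      exact he.resolve_left (Nat.not_even_iff_odd.2 h6)
    obtain ⟨d, hd⟩ := h7
    have h8 : 0 < d := by
      rcases Nat.eq_zero_or_pos d with h | h
      · exfalso
        rw [hd, h] at hc
        omega
      · exact h
    have h9 : 2 * Nat.card (oddSub A) ≤ n := by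
      rw [hc, hd]
      nlinarith
    omega

/-- `k ≥ 3` odd -/
theorem case_k_odd (hn : 2 ≤ n) (he : Even n) (hP : GP n (n.choose 2 - 1) P) {k i : ℕ}
    (hi : 1 ≤ i) (hk : k = 2 * i + 1) (hkn : k < n) (hmem : Mem P k) : False := by
  have : NeZero n := ⟨by omega⟩
  have : Fact (Nat.Prime 2) := ⟨Nat.prime_two⟩
  have hinv : inv (ZMod n) = 1 := by
    have := inv_add_one (ZMod n)
    rw [tor_even he] at this
    omega
  obtain ⟨N, hN, hprod⟩ := prod_pr (A := ZMod n)
  obtain ⟨N2, hN2, hO⟩ := Od_le (A := ZMod n)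
  rw [hinv, ZMod.card] at hN hN2
  rw [hinv, pow_one] at hprod
  have key := regC hn hP (A := ZMod n) (ZMod.card n) 2 (ι := Empty) (fun i => i.elim) 1
    (fun i => i.elim) (gen_cyc _)
  have h1 := eval (A := ZMod n) (k := k) (by rw [ZMod.card]; exact hn)
    (fun S => PV P (ZMod n) (cay S)) (hmem (ZMod n) (ZMod.card n)) key (by omega) _ hprod
  rw [show k - 1 = 2 * i by omega, e2_even, cf_sign] at h1
  have hpos : 0 < N.choose i := Nat.choose_pos (by omega)
  rcases hO' : (Od (ZMod n)).card with _ | M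
  · rw [hO', W_zero (by omega), neg_zero] at h1
    have h2 : ((-1 : ℤ) ^ i) ≠ 0 := pow_ne_zero _ (by norm_num)
    have h3 := (mul_eq_zero.1 h1).resolve_left h2
    have h4 : N.choose i = 0 := by exact_mod_cast h3
    omega
  · rw [hO', W_succ M k i (Or.inl hk), neg_neg] at h1
    have h2 : ((-1 : ℤ) ^ i) ≠ 0 := pow_ne_zero _ (by norm_num)
    have h3 := mul_left_cancel₀ h2 h1
    have h4 : N.choose i = M.choose i := by exact_mod_cast h3
    obtain ⟨N', rfl⟩ : ∃ N', N = N' + 1 := ⟨N - 1, by omega⟩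
    obtain ⟨j, rfl⟩ : ∃ j, i = j + 1 := ⟨i - 1, by omega⟩
    rw [Nat.choose_succ_succ'] at h4
    have h5 : M.choose (j + 1) ≤ N'.choose (j + 1) := Nat.choose_le_choose _ (by omega)
    have h6 : 0 < N'.choose j := Nat.choose_pos (by omega)
    omega

/-- `k` even, `4 ∣ n` -/
theorem case_k_even_four (hn : 2 ≤ n) (h4 : 4 ∣ n) (hP : GP n (n.choose 2 - 1) P) {k i : ℕ}
    (hk : k = 2 * i + 2) (hkn : k < n) (hmem : Mem P k) : False := by
  obtain ⟨r, hr⟩ := h4
  have hr0 : 0 < r := by omega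
  have : NeZero (2 * r) := ⟨by omega⟩
  have : Fact (Nat.Prime 2) := ⟨Nat.prime_two⟩
  have hcard : Fintype.card (ZMod 2 × ZMod (2 * r)) = n := by
    rw [Fintype.card_prod, ZMod.card, ZMod.card, hr]
    ring
  have hinv : inv (ZMod 2 × ZMod (2 * r)) = 3 := by
    have := inv_add_one (ZMod 2 × ZMod (2 * r))
    rw [tor_prod, tor_even (by decide), tor_even (even_two_mul r)] at this
    omega
  obtain ⟨N, hN, hprod⟩ := prod_pr (A := ZMod 2 × ZMod (2 * r))
  rw [hinv, hcard] at hN
  rw [hinv] at hprod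
  have key := regC hn hP (A := ZMod 2 × ZMod (2 * r)) hcard 2 (ι := Unit)
    (fun _ => (1, 0)) (0, 1)
    (by
      intro _
      rw [Prod.smul_mk, smul_zero]
      exact Prod.ext (two_nsmul_zmod 1) rfl)
    (by
      rintro ⟨x, y⟩
      have h1 : ((x, y) : ZMod 2 × ZMod (2 * r)) =
          x.val • ((1, 0) : ZMod 2 × ZMod (2 * r)) + y.val • ((0, 1) : ZMod 2 × ZMod (2 * r)) := by
        rw [Prod.smul_mk, Prod.smul_mk, smul_zero, smul_zero, Prod.mk_add_mk, zero_add, add_zero,
          nsmul_eq_mul, mul_one, nsmul_eq_mul, mul_one, ZMod.natCast_zmod_val,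
          ZMod.natCast_zmod_val]
      rw [h1, trl_add, trl_nsmul, trl_nsmul]
      refine Subgroup.mul_mem _ (Subgroup.pow_mem _ (Subgroup.subset_closure ?_) _)
        (Subgroup.pow_mem _ (Subgroup.subset_closure (Set.mem_insert _ _)) _)
      exact Set.mem_insert_of_mem _ ⟨(), rfl⟩)
  have h1 := eval (A := ZMod 2 × ZMod (2 * r)) (k := k) (by rw [hcard]; exact hn)
    (fun S => PV P (ZMod 2 × ZMod (2 * r)) (cay S)) (hmem _ hcard) key (by omega)
    ((1 - X) ^ 2 * (1 - X ^ 2) ^ N) (by rw [hprod]; ring)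
  have h2 : (1 - (X : ℤ[X])) ^ 2 * (1 - X ^ 2) ^ N =
      (1 - X) * (1 - X ^ 2) ^ N - X * ((1 - X) * (1 - X ^ 2) ^ N) := by ring
  rw [show k - 1 = 2 * i + 1 by omega, h2, coeff_sub, m_odd, coeff_X_mul, m_even, cf_sign] at h1
  have hpos : 0 < N.choose i := Nat.choose_pos (by omega)
  have h3 : ((-1 : ℤ) ^ i) ≠ 0 := pow_ne_zero _ (by norm_num)
  rcases hO' : (Od (ZMod 2 × ZMod (2 * r))).card with _ | M
  · rw [hO', W_zero (by omega), neg_zero] at h1
    have h5 : (-1 : ℤ) ^ i * (2 * (N.choose i : ℤ)) = 0 := by linarith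
    have h6 := (mul_eq_zero.1 h5).resolve_left h3
    have h7 : 2 * N.choose i = 0 := by exact_mod_cast h6
    omega
  · rw [hO', W_succ M k i (Or.inr hk), neg_neg] at h1
    have h5 : (-1 : ℤ) ^ i * (2 * (N.choose i : ℤ) + (M.choose i : ℤ)) = 0 := by linarith
    have h6 := (mul_eq_zero.1 h5).resolve_left h3
    have h7 : 2 * N.choose i + M.choose i = 0 := by exact_mod_cast h6
    omega

/-- `k` even, `n = 2 m` with `m > k` odd -/
theorem case_k_even_two (hn : 2 ≤ n) {m : ℕ} (hm : Odd m) (hnm : n = 2 * m)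
    (hP : GP n (n.choose 2 - 1) P) {k i : ℕ}
    (hk : k = 2 * i + 2) (hkm : k < m) (hmem : Mem P k) : False := by
  have : NeZero m := ⟨by omega⟩
  have : Fact (Nat.Prime 2) := ⟨Nat.prime_two⟩
  have hcard : Fintype.card (ZMod 2 × ZMod m) = n := by
    rw [Fintype.card_prod, ZMod.card, ZMod.card, hnm]
  have hinv : inv (ZMod 2 × ZMod m) = 1 := by
    have := inv_add_one (ZMod 2 × ZMod m)
    rw [tor_prod, tor_even (by decide), tor_odd hm] at this
    omega
  obtain ⟨N, hN, hprod⟩ := prod_pr (A := ZMod 2 × ZMod m)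
  rw [hinv, hcard] at hN
  rw [hinv, pow_one] at hprod
  have key := regC hn hP (A := ZMod 2 × ZMod m) hcard 2 (ι := Unit)
    (fun _ => (1, 0)) (0, 1)
    (by
      intro _
      rw [Prod.smul_mk, smul_zero]
      exact Prod.ext (two_nsmul_zmod 1) rfl)
    (by
      rintro ⟨x, y⟩
      have h1 : ((x, y) : ZMod 2 × ZMod m) =
          x.val • ((1, 0) : ZMod 2 × ZMod m) + y.val • ((0, 1) : ZMod 2 × ZMod m) := by
        rw [Prod.smul_mk, Prod.smul_mk, smul_zero, smul_zero, Prod.mk_add_mk, zero_add, add_zero,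
          nsmul_eq_mul, mul_one, nsmul_eq_mul, mul_one, ZMod.natCast_zmod_val,
          ZMod.natCast_zmod_val]
      rw [h1, trl_add, trl_nsmul, trl_nsmul]
      refine Subgroup.mul_mem _ (Subgroup.pow_mem _ (Subgroup.subset_closure ?_) _)
        (Subgroup.pow_mem _ (Subgroup.subset_closure (Set.mem_insert _ _)) _)
      exact Set.mem_insert_of_mem _ ⟨(), rfl⟩)
  have h1 := eval (A := ZMod 2 × ZMod m) (k := k) (by rw [hcard]; exact hn)
    (fun S => PV P (ZMod 2 × ZMod m) (cay S)) (hmem _ hcard) key (by omega) _ hprod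
  rw [show k - 1 = 2 * i + 1 by omega, e2_odd] at h1
  -- the number of elements of odd order
  have h2 : m ≤ Nat.card (oddSub (ZMod 2 × ZMod m)) := by
    have h3 : ∀ y : ZMod m, ((0, y) : ZMod 2 × ZMod m) ∈ oddSub (ZMod 2 × ZMod m) := by
      intro y
      rw [mem_oddSub]
      refine Odd.of_dvd_nat hm (addOrderOf_dvd_of_nsmul_eq_zero ?_)
      rw [Prod.smul_mk, smul_zero, nsmul_eq_mul, ZMod.natCast_self, zero_mul]
      rfl
    have h4 := Nat.card_le_card_of_injective
      (fun y : ZMod m => (⟨(0, y), h3 y⟩ : oddSub (ZMod 2 × ZMod m)))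
      (fun a b h => (Prod.ext_iff.1 (Subtype.ext_iff.1 h)).2)
    rwa [Nat.card_zmod] at h4
  have h5 := Od_card (A := ZMod 2 × ZMod m)
  rcases hO' : (Od (ZMod 2 × ZMod m)).card with _ | M
  · omega
  · rw [hO', W_succ M k i (Or.inr hk), neg_neg] at h1
    have h3 : ((-1 : ℤ) ^ i) ≠ 0 := pow_ne_zero _ (by norm_num)
    have h6 := (mul_eq_zero.1 h1.symm).resolve_left h3
    have h7 : M.choose i = 0 := by exact_mod_cast h6
    have hpos : 0 < M.choose i := Nat.choose_pos (by omega)
    omega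

/-- There is no decision tree with fewer than all queries. -/
theorem no_GP_mem (hn : 2 ≤ n) (he : Even n) (hP : GP n (n.choose 2 - 1) P) {k : ℕ}
    (hk2 : 2 ≤ k) (hkn : k < n) (hmem : Mem P k) : False := by
  rcases Nat.even_or_odd k with hk | hk
  · obtain ⟨j, hj⟩ := hk
    obtain ⟨i, rfl⟩ : ∃ i, j = i + 1 := ⟨j - 1, by omega⟩
    have hk' : k = 2 * i + 2 := by omega
    by_cases h4 : 4 ∣ n
    · exact case_k_even_four hn h4 hP hk' hkn hmem
    · by_cases hl : n ≤ 2 * k
      · exact case_large hn he hP (by omega) hkn hmem hl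
      · obtain ⟨m, hm⟩ := he
        refine case_k_even_two hn (m := m) ?_ (by omega) hP hk' (by omega) hmem
        rw [← Nat.not_even_iff_odd]
        rintro ⟨c, hc⟩
        exact h4 ⟨c, by omega⟩
  · obtain ⟨i, hi⟩ := hk
    exact case_k_odd hn he hP (i := i) (by omega) hi hkn hmem

end

end Pool.Agent.R54.EV
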