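import Mathlib
import Pool.Agent.R54.EV.Main
import Pool.Agent.Results.MP_257582_lc.DisjointCopies

set_option autoImplicit false

/-!
# The properties (MP_257582_lc)
-/

namespace Pool.Agent.R54.EV

open Finset
open Pool.Agent.W332.Kd
open Pool.Agent.H119R2.Kp

section Gen

variable {V : Type}

theorem closed_reach {G : SimpleGraph V} {U : Finset V}
    (hU : ∀ u ∈ U, ∀ v, G.Adj u v → v ∈ U) {u v : V} (h : G.Reachable u v) (hu : u ∈ U) :
    v ∈ U := by
  obtain ⟨p⟩ := h
  induction p with
  | nil => exact hu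
  | cons hadj _ ih => exact ih (hU _ hu _ hadj)

theorem closed_even {G : SimpleGraph V} (h : EvenComps G) (U : Finset V)
    (hU : ∀ u ∈ U, ∀ v, G.Adj u v → v ∈ U) : Even U.card := by
  classical
  rw [Finset.card_eq_sum_card_image G.connectedComponentMk U]
  refine Finset.even_sum _ fun C hC => ?_
  rw [mem_image] at hC
  obtain ⟨u, hu, rfl⟩ := hC
  have h1 := h (G.connectedComponentMk u)
  have h2 : (G.connectedComponentMk u).supp =
      ((U.filter fun v => G.connectedComponentMk v = G.connectedComponentMk u : Finset V) :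
        Set V) := by
    ext v
    rw [SimpleGraph.ConnectedComponent.mem_supp_iff, Finset.mem_coe, mem_filter]
    constructor
    · intro hv
      refine ⟨closed_reach hU ?_ hu, hv⟩
      exact (SimpleGraph.ConnectedComponent.exact hv).symm
    · exact fun hv => hv.2
  rw [h2, Set.ncard_coe_finset] at h1
  exact h1

theorem evenComps_of_factor [Finite V] {G : SimpleGraph V} {k : ℕ} (hk : Odd k)
    (h : HasFactor k G) : EvenComps G := by
  classical
  have := Fintype.ofFinite V
  obtain ⟨H, hHG, hreg⟩ := h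
  intro C
  set S : Finset V := C.supp.toFinset with hS
  have hSc : ∀ u ∈ S, ∀ v, H.Adj u v → v ∈ S := by
    intro u hu v huv
    rw [hS, Set.mem_toFinset, SimpleGraph.ConnectedComponent.mem_supp_iff] at hu ⊢
    rw [← hu]
    exact (SimpleGraph.ConnectedComponent.sound (hHG huv).reachable).symm
  have h1 : ((S ×ˢ S).filter fun p => H.Adj p.1 p.2).card = S.card * k := by
    rw [Finset.card_filter, Finset.sum_product, Finset.sum_congr rfl fun u hu => ?_,
      Finset.sum_const, smul_eq_mul]
    rw [← Finset.card_filter, ← hreg u]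
    have h2 : H.neighborSet u = ((S.filter fun v => H.Adj u v : Finset V) : Set V) := by
      ext v
      rw [SimpleGraph.mem_neighborSet, Finset.mem_coe, mem_filter]
      exact ⟨fun h => ⟨hSc u hu v h, h⟩, fun h => h.2⟩
    rw [h2, Set.ncard_coe_finset]
  have h2 : Even ((S ×ˢ S).filter fun p => H.Adj p.1 p.2).card := by
    have h3 : ∑ x ∈ (S ×ˢ S).filter fun p => H.Adj p.1 p.2, (1 : ZMod 2) = 0 := by
      refine Finset.sum_involution (fun a _ => a.swap) ?_ ?_ ?_ ?_
      · intro a _
        decide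
      · rintro ⟨a, b⟩ hab _ h
        rw [mem_filter] at hab
        have h4 : b = a := (Prod.ext_iff.1 h).1
        have h5 := hab.2
        simp only at h5
        rw [h4] at h5
        exact H.loopless.irrefl a h5
      · rintro ⟨a, b⟩ hab
        rw [mem_filter, mem_product] at hab ⊢
        exact ⟨⟨hab.1.2, hab.1.1⟩, hab.2.symm⟩
      · intro a _
        exact Prod.swap_swap a
    rw [Finset.sum_const, nsmul_eq_mul, mul_one] at h3
    exact (ZMod.natCast_eq_zero_iff_even).1 h3
  rw [h1, Nat.even_mul] at h2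
  have h3 := h2.resolve_right (Nat.not_even_iff_odd.2 hk)
  have h4 : C.supp.ncard = S.card := by
    rw [hS, Set.ncard_eq_toFinset_card']
  rw [h4]
  exact h3

theorem HasFactor.map {W : Type} {k : ℕ} {G : SimpleGraph V} (h : HasFactor k G) (e : V ≃ W) :
    HasFactor k (G.map e.toEmbedding) := by
  obtain ⟨H, h1, h2⟩ := h
  exact ⟨H.map e.toEmbedding, SimpleGraph.map_monotone _ h1, h2.map e⟩

theorem HasFactor.mono {k : ℕ} {G H : SimpleGraph V} (hGH : G ≤ H) (h : HasFactor k G) :
    HasFactor k H := by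
  obtain ⟨K, h1, h2⟩ := h
  exact ⟨K, h1.trans hGH, h2⟩

end Gen

/-- average degree at least `k` -/
def AvgDeg {n : ℕ} (k : ℕ) (G : SimpleGraph (Fin n)) : Prop :=
  k * n ≤ ∑ v : Fin n, (G.neighborSet v).ncard

theorem avgDeg_of_factor {n k : ℕ} {G : SimpleGraph (Fin n)} (h : HasFactor k G) :
    AvgDeg k G := by
  obtain ⟨H, h1, h2⟩ := h
  unfold AvgDeg
  calc k * n = ∑ v : Fin n, (H.neighborSet v).ncard := by
        rw [Finset.sum_congr rfl fun v _ => h2 v, Finset.sum_const, Finset.card_univ,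
          Fintype.card_fin, smul_eq_mul, mul_comm]
    _ ≤ _ := by
        refine Finset.sum_le_sum fun v _ => ?_
        exact Set.ncard_le_ncard (fun x hx => h1 hx) (Set.toFinite _)

theorem avgDeg_cay {n k : ℕ} (hn : 0 < n) {A : Type} [AddCommGroup A] {S : Finset A} (hS : Sy S)
    (e : A ≃ Fin n) (h : AvgDeg k ((cay S).map e.toEmbedding)) : k ≤ S.card := by
  unfold AvgDeg at h
  rw [Finset.sum_congr rfl fun v _ => (cay_Reg hS).map e v, Finset.sum_const, Finset.card_univ,
    Fintype.card_fin, smul_eq_mul, mul_comm k n] at h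
  exact Nat.le_of_mul_le_mul_left h hn

/-- `G` is isomorphic to a Cayley graph of an abelian group -/
def AbelianCayley {V : Type} (G : SimpleGraph V) : Prop :=
  ∃ (A : Type) (_ : AddCommGroup A) (T : Set A) (e : A ≃ V),
    ∀ x y : A, G.Adj (e x) (e y) ↔ x ≠ y ∧ (y - x ∈ T ∨ x - y ∈ T)

theorem abelianCayley_cay {V A : Type} [AddCommGroup A] (S : Finset A) (e : A ≃ V) :
    AbelianCayley ((cay S).map e.toEmbedding) := by
  refine ⟨A, inferInstance, (S : Set A), e, fun x y => ?_⟩
  rw [SimpleGraph.map_adj]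
  constructor
  · rintro ⟨u, v, h, hu, hv⟩
    have h1 : u = x := e.injective hu
    have h2 : v = y := e.injective hv
    rw [h1, h2] at h
    exact h
  · intro h
    exact ⟨x, y, h, rfl, rfl⟩

/-- the sandwich gives the membership -/
theorem mem_of_sandwich {n k : ℕ} (hn : 0 < n) {P : SimpleGraph (Fin n) → Prop}
    (ha : ∀ G, AbelianCayley G → HasFactor 1 G → HasFactor k G → P G)
    (hb : ∀ G, AbelianCayley G → P G → EvenComps G ∧ AvgDeg k G) : Mem P k := by
  intro A _ _ hA S hS
  constructor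
  · rintro ⟨e, he⟩
    obtain ⟨h1, h2⟩ := hb _ (abelianCayley_cay S e) he
    refine ⟨avgDeg_cay hn hS e h2, ?_⟩
    by_contra hcon
    push Not at hcon
    classical
    set U : Finset A := univ.filter fun x => x ∈ oddSub A with hU
    have h3 : Odd U.card := by
      have h4 := card_oddSub (A := A)
      rwa [Nat.subtype_card U (fun x => by rw [hU, mem_filter]; simp)] at h4
    have h4 : Even (U.map e.toEmbedding).card := by
      refine closed_even h1 _ ?_
      intro u hu v huv
      rw [Finset.mem_map] at hu ⊢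
      obtain ⟨x, hx, rfl⟩ := hu
      rw [SimpleGraph.map_adj] at huv
      obtain ⟨x', y, hxy, h5, rfl⟩ := huv
      have h6 : x' = x := e.injective h5
      rw [h6, cay_adj hS] at hxy
      refine ⟨y, ?_, rfl⟩
      rw [hU, mem_filter] at hx ⊢
      refine ⟨mem_univ _, ?_⟩
      have h7 : y - x ∈ oddSub A := Nat.not_even_iff_odd.1 (hcon _ hxy)
      have h8 : y = (y - x) + x := by abel
      rw [h8]
      exact (oddSub A).add_mem h7 hx.2
    rw [Finset.card_map] at h4
    exact (Nat.not_even_iff_odd.2 h3) h4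
  · rintro ⟨h1, h2⟩
    have e : A ≃ Fin n := Fintype.equivFinOfCardEq hA
    exact ⟨e, ha _ (abelianCayley_cay S e) ((hasFactor_one hS h2).map e)
      ((hasFactor_cay hS h1 (Or.inr h2)).map e)⟩

/-- the property of having a `k`-factor, `k` even -/
theorem mem_even {n k : ℕ} (hn : 0 < n) (hk : Even k) (A : Type) [AddCommGroup A] [Fintype A]
    (hA : Fintype.card A = n) (S : Finset A) (hS : Sy S) :
    PV (fun G : SimpleGraph (Fin n) => HasFactor k G) A (cay S) ↔ k ≤ S.card := by
  constructor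
  · rintro ⟨e, he⟩
    exact avgDeg_cay hn hS e (avgDeg_of_factor he)
  · intro h
    have e : A ≃ Fin n := Fintype.equivFinOfCardEq hA
    exact ⟨e, (hasFactor_cay hS h (Or.inl hk)).map e⟩

open Pool.Agent.Results.MP_257582_lc.DisjointCopies (Evasive copies Holds)

theorem evasive_of {n : ℕ} {P : SimpleGraph (Fin n) → Prop}
    (hmono : ∀ G H : SimpleGraph (Fin n), G ≤ H → P G → P H)
    (hiso : ∀ (σ : Fin n ≃ Fin n) (G : SimpleGraph (Fin n)), P G → P (G.map σ.toEmbedding))
    (h : GP n (n.choose 2 - 1) P → False) : Evasive P := by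
  intro σ hσ
  by_contra hcon
  have hdec : Dec (n.choose 2 - 1)
      (fun S : Finset (Pool.Agent.H98R2.Ev.EV (Fin n)) => P (Pool.Agent.H98R2.Ev.toG S)) := by
    refine dec_of_strategy _ P σ hσ fun G H hGH hPG => ?_
    by_contra hPH
    exact hcon ⟨G, H, hGH, hPG, hPH⟩
  exact h ⟨hmono, hiso, hdec⟩

/-- `k = 1` -/
theorem evasive_one {n : ℕ} (hn : 2 ≤ n) (he : Even n) {P : SimpleGraph (Fin n) → Prop}
    (hmono : ∀ G H : SimpleGraph (Fin n), G ≤ H → P G → P H)
    (hiso : ∀ (σ : Fin n ≃ Fin n) (G : SimpleGraph (Fin n)), P G → P (G.map σ.toEmbedding))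
    (ha : ∀ G, AbelianCayley G → HasFactor 1 G → HasFactor 1 G → P G)
    (hb : ∀ G, AbelianCayley G → P G → EvenComps G ∧ AvgDeg 1 G) : Evasive P := by
  obtain ⟨m, hm⟩ := he
  have hm0 : m ≠ 0 := by omega
  have : NeZero m := ⟨hm0⟩
  refine Pool.Agent.Results.MP_257582_lc.DisjointCopies.result n m 2 ⟨2, 1, Nat.prime_two.prime,
    by norm_num, by norm_num⟩ (by omega) (SimpleGraph.pathGraph 2) (Or.inl ⟨Nat.prime_two, rfl⟩) P
    hmono hiso (Or.inl ⟨?_, ?_⟩)
  · intro hbot
    have h1 : AbelianCayley (⊥ : SimpleGraph (Fin n)) := by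
      have : NeZero n := ⟨by omega⟩
      have e : ZMod n ≃ Fin n := Fintype.equivFinOfCardEq (ZMod.card n)
      refine ⟨ZMod n, inferInstance, ∅, e, fun x y => ?_⟩
      simp
    have h2 := (hb _ h1 hbot).2
    unfold AvgDeg at h2
    have h3 : ∀ v : Fin n, ((⊥ : SimpleGraph (Fin n)).neighborSet v).ncard = 0 := by
      intro v
      have : (⊥ : SimpleGraph (Fin n)).neighborSet v = ∅ := by
        ext x
        simp
      rw [this, Set.ncard_empty]
    rw [Finset.sum_congr rfl fun v _ => h3 v] at h2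
    simp at h2
    omega
  · have e : Fin m × Fin 2 ≃ Fin n := Fintype.equivFinOfCardEq (by
      rw [Fintype.card_prod, Fintype.card_fin, Fintype.card_fin]
      omega)
    refine ⟨e, ?_⟩
    have h1 : Reg (copies m (SimpleGraph.pathGraph 2)) 1 := by
      rintro ⟨a, b⟩
      have h2 : (copies m (SimpleGraph.pathGraph 2)).neighborSet (a, b) = {(a, b + 1)} := by
        ext ⟨c, d⟩
        rw [SimpleGraph.mem_neighborSet, Set.mem_singleton_iff]
        change (a = c ∧ (SimpleGraph.pathGraph 2).Adj b d) ↔ _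
        rw [Prod.ext_iff]
        have h3 : ∀ b d : Fin 2, (SimpleGraph.pathGraph 2).Adj b d ↔ d = b + 1 := by
          intro b d
          rw [SimpleGraph.pathGraph_adj]
          revert b d
          decide
        rw [h3]
        exact ⟨fun h => ⟨h.1.symm, h.2⟩, fun h => ⟨h.1.symm, h.2⟩⟩
      rw [h2, Set.ncard_singleton]
    have h2 : AbelianCayley ((copies m (SimpleGraph.pathGraph 2)).map e.toEmbedding) := by
      have e1 : ZMod m ≃ Fin m := Fintype.equivFinOfCardEq (ZMod.card m)
      refine ⟨ZMod m × Fin 2, inferInstance, {(0, 1)}, (Equiv.prodCongr e1 (Equiv.refl _)).trans e,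
        fun x y => ?_⟩
      obtain ⟨a, b⟩ := x
      obtain ⟨c, d⟩ := y
      have h3 : ∀ b d : Fin 2, (SimpleGraph.pathGraph 2).Adj b d ↔ d = b + 1 := by
        intro b d
        rw [SimpleGraph.pathGraph_adj]
        revert b d
        decide
      have h4 : ∀ b d : Fin 2, (d - b = 1 ↔ d = b + 1) ∧ (b - d = 1 ↔ d = b + 1) ∧ b ≠ b + 1 := by
        decide
      have h5 : ((copies m (SimpleGraph.pathGraph 2)).map e.toEmbedding).Adj (e (e1 a, b))
          (e (e1 c, d)) ↔ (e1 a = e1 c ∧ (SimpleGraph.pathGraph 2).Adj b d) :=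
        SimpleGraph.map_adj_apply (f := e.toEmbedding) (a := (e1 a, b)) (b := (e1 c, d))
      refine h5.trans ?_
      rw [h3, e1.apply_eq_iff_eq, Prod.mk_sub_mk, Prod.mk_sub_mk, Set.mem_singleton_iff,
        Set.mem_singleton_iff, Prod.mk.injEq, Prod.mk.injEq, (h4 b d).1, (h4 b d).2.1, sub_eq_zero,
        sub_eq_zero, Ne, Prod.mk.injEq]
      constructor
      · rintro ⟨rfl, rfl⟩
        exact ⟨fun h => (h4 b b).2.2 h.2, Or.inl ⟨rfl, rfl⟩⟩
      · rintro ⟨-, h | h⟩
        · exact ⟨h.1.symm, h.2⟩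
        · exact ⟨h.1, h.2⟩
    have h3 : HasFactor 1 ((copies m (SimpleGraph.pathGraph 2)).map e.toEmbedding) :=
      ⟨_, le_rfl, h1.map e⟩
    exact ha _ h2 h3 h3

end Pool.Agent.R54.EV
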